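import Pool.Agent.V11230.Maint4

/-!
# Unidirectional maintenance scheduling with unevenly spaced train paths in polynomial time

Each job cancels the paths that start in a window; a set of kept paths is compatible with a schedule
iff each job fits into a gap between consecutive kept paths.  For positions `x ≤ y` let `F(x, y)` be
the largest set of kept paths between `x` and `y` (both kept) such that each job that can be placed
only between `x` and `y` fits.  An optimal set is split at its widest gap: a job which by its position
alone can be placed in this gap and fits somewhere also fits there.
-/

set_option autoImplicit false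

namespace Pool.Agent.Results.MP_2ca8f5_lc.MaintenancePolyTime

open Pool.Agent.NPC Pool.Agent.V11230.MT Pool.Agent.NPC.V11230.MTA

/-- **There is a polynomial-time algorithm that finds a schedule minimising the number of cancelled
paths**, for every instance of unidirectional maintenance scheduling with parallel, unevenly spaced
paths. The output is the list of the start times as fractions. -/
theorem result :
    ∃ A : List Bool → List Bool, PolyTime A ∧ ∀ I : Inst, I.Valid →
      ∃ (o : List (ℕ × ℕ)) (s : Fin I.jobs.length → ℚ), A (bits (code I)) = bits o ∧
        o.length = I.jobs.length ∧
        (∀ k : Fin I.jobs.length, ∃ x : ℕ × ℕ, o[(k : ℕ)]? = some x ∧ x.2 ≠ 0 ∧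
          s k = (x.1 : ℚ) / (x.2 : ℚ)) ∧
        Feasible I (fun k => (s k : ℝ)) ∧
        ∀ s' : Fin I.jobs.length → ℝ, Feasible I s' →
          (cancelled I (fun k => (s k : ℝ))).card ≤ (cancelled I s').card := by
  refine ⟨alg, polyTime_alg, fun I hI => ⟨out (code I), sched I, alg_code _, (out_code hI).1,
    (out_code hI).2, ?_⟩⟩
  exact sched_optimal hI

end Pool.Agent.Results.MP_2ca8f5_lc.MaintenancePolyTime
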